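import Pool.Agent.N658.TP.In2

/-!
# Local PEPS approximation of vectors with small entropy: bond dimension `exp (ε^(-2/3))`

Let `d ≥ 2` and let `R ⊂ ℤ²` be a finite region.

(1) There is `C = C(d, R)` such that for all `0 < ε ≤ 1`, `b ≥ 1` and EVERY translation invariant unit
vector `Ψ` on a torus of side `L ≥ C b / ε`: if `S_b` is the entropy of the reduced density matrix of
`Ψ` on a `b × b` box, then ONE translation invariant tensor of bond dimension at most
`exp (C (b² + (1 + S_b / (b² ε)) log (2 b / ε)))` has nonzero PEPS vectors on all tori of side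
`L' ≥ C (b / ε)^4` and reproduces there the reduced density matrix of `Ψ` on `R` up to `ε` in trace
norm. With `b = 1` this is `exp (C log (2 / ε) / ε)`.

(2) Consequently, for translation invariant gapped Hamiltonians (unique ground states, convergent
reduced density matrices) whose ground states have block entropies `S_b ≤ a b^α`, `0 ≤ α ≤ 2`, the
conclusion of Q1 holds with `g(ε, R) = exp (C ε^(-2/(4-α)) log (2 / ε))`. If the ground states obey
the area law for the von Neumann entropy (`α = 1`), this is `exp (C ε^(-2/3) log (2 / ε))`. Every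
nontrivial bound `α < 2` improves the general bound `exp (C / ε)`.

Proof. The marginals are found by duality, as in ThermalPEPS, but the maximally mixed state is
replaced by the product `ω` of the reduced density matrices `ρ_b` of `Ψ` on the tiles of a tiling of a
torus of side `m ~ b / ε`: for an observable `B` with norm at most one, let `Γ = log ω` (regularised)
and let `K` be the sum of the translates of `B`. By the Gibbs variational principle the state
proportional to `exp (Γ - β K)` has energy per site within `O(ε)` of the energy of `Ψ` as soon as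
`β ≥ S_b / (b² ε)` (the relative entropy of the state of `Ψ` with respect to `ω` is at most
`(m / b)² S_b`). A telescoping product of Golden-Thompson type gives an operator close to
`exp ((Γ - β K) / 2)` of the form (few factors close to one)`·exp (Γ / 2)` with the error measured in
relative Frobenius norm; its factors are networks of small bond dimension, and `exp (Γ / 2)` needs bond
dimension `exp (O (b²))` only. The mixed state is purified and averaged over translations into one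
translation invariant tensor.

Co-authors (Lean proofs of the parts): helpers 26, 79, 87, 134, 163, 286, 340, 346, 607, 645, 692,
756, 767, 776, 896 and those of ThermalPEPS.
-/

set_option autoImplicit false

open scoped BigOperators ComplexConjugate Classical

noncomputable section

namespace Pool.Agent.Results.MP_0f69bf_mp.EntropyPEPS

/-- Sites of the `L × L` torus. -/
abbrev Site (L : ℕ) := ZMod L × ZMod L

/-- Configurations (basis states) of the torus with local dimension `d`; vectors are functions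
`Conf d L → ℂ`. -/
abbrev Conf (d L : ℕ) := Site L → Fin d

/-- Configurations of a `q × q` box. -/
abbrev BConf (d q : ℕ) := Fin q × Fin q → Fin d

/-- Squared norm of a vector. -/
def nrm {S : Type} [Fintype S] (f : S → ℂ) : ℝ := ∑ s, ‖f s‖ ^ 2

/-- The matrix `B` has operator norm at most `1`. -/
def Contr {S : Type} [Fintype S] (B : S → S → ℂ) : Prop :=
  ∀ f : S → ℂ, nrm (fun σ => ∑ τ, B σ τ * f τ) ≤ nrm f

/-- The restriction of `s` to the `q × q` box with corner `v`. -/
def box {d L : ℕ} (q : ℕ) (s : Conf d L) (v : Site L) : BConf d q :=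
  fun p => s (v.1 + ((p.1 : ℕ) : ZMod L), v.2 + ((p.2 : ℕ) : ZMod L))

/-- The configuration `s` with its content on the `q × q` box with corner `v` replaced by `τ`. -/
def put {d L q : ℕ} (s : Conf d L) (v : Site L) (τ : BConf d q) : Conf d L :=
  fun w => if h : (w.1 - v.1).val < q ∧ (w.2 - v.2).val < q then
    τ (⟨(w.1 - v.1).val, h.1⟩, ⟨(w.2 - v.2).val, h.2⟩) else s w

/-- The restriction of `s` to the translate by `v` of the region `R ⊂ ℤ²`. -/
def res {d L : ℕ} (R : Finset (ℤ × ℤ)) (s : Conf d L) (v : Site L) : R → Fin d :=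
  fun p => s (v.1 + ((p : ℤ × ℤ).1 : ZMod L), v.2 + ((p : ℤ × ℤ).2 : ZMod L))

/-- `⟨Ψ, B_v Ψ⟩`, the matrix `B` acting on the translate by `v` of the region `R`: the sum of
`conj (Ψ s) * B (s on v + R) (s' on v + R) * Ψ s'` over all pairs `s`, `s'` which agree off
`v + R`. -/
def expecR {d L : ℕ} [NeZero L] (R : Finset (ℤ × ℤ)) (Ψ : Conf d L → ℂ) (v : Site L)
    (B : (R → Fin d) → (R → Fin d) → ℂ) : ℂ :=
  ∑ s : Conf d L, ∑ s' : Conf d L,
    if (∀ w : Site L, (∀ p ∈ R, w ≠ (v.1 + (p.1 : ZMod L), v.2 + (p.2 : ZMod L))) → s w = s' w)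
    then conj (Ψ s) * B (res R s v) (res R s' v) * Ψ s' else 0

/-- The reduced density matrices on `R` of the normalised vectors `Ψ`, `Ψ'` (on two possibly
different tori, at any positions) have trace distance at most `ε`: the expectations of all
matrices of norm at most `1` differ by at most `ε`. -/
def Close {d L L' : ℕ} [NeZero L] [NeZero L'] (R : Finset (ℤ × ℤ)) (Ψ : Conf d L → ℂ)
    (Ψ' : Conf d L' → ℂ) (ε : ℝ) : Prop :=
  ∀ (u : Site L) (v : Site L') (B : (R → Fin d) → (R → Fin d) → ℂ), Contr B →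
    ‖expecR R Ψ u B / (nrm Ψ : ℂ) - expecR R Ψ' v B / (nrm Ψ' : ℂ)‖ ≤ ε

/-- A PEPS tensor with physical dimension `d` and bond dimension `D`; indices: physical, left,
right, down, up. -/
abbrev Tensor (d D : ℕ) := Fin d → Fin D → Fin D → Fin D → Fin D → ℂ

/-- The translation invariant PEPS vector of the tensor `A` on the `L × L` torus. -/
def peps {d D : ℕ} (A : Tensor d D) (L : ℕ) [NeZero L] : Conf d L → ℂ :=
  fun s => ∑ hor : Site L → Fin D, ∑ ver : Site L → Fin D,
    ∏ v : Site L, A (s v) (hor (v.1 - 1, v.2)) (hor v) (ver (v.1, v.2 - 1)) (ver v)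

/-- The vector `Ψ` is translation invariant up to scalars. -/
def TransInv {d L : ℕ} (Ψ : Conf d L → ℂ) : Prop :=
  ∀ a : Site L, ∃ c : ℂ, ∀ s : Conf d L, Ψ (fun w => s (w + a)) = c * Ψ s

/-- The reduced density matrix of the vector `Ψ` on the `b × b` box with corner `0`: its entry
`(σ, τ)` is `∑_s conj (Ψ s) Ψ (s with σ put on the box)`, the sum over the `s` that are `τ` on the
box. -/
def rdm {d L : ℕ} [NeZero L] (Ψ : Conf d L → ℂ) (b : ℕ) : Matrix (BConf d b) (BConf d b) ℂ :=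
  Matrix.of fun σ τ => ∑ s : Conf d L, if box b s 0 = τ then conj (Ψ s) * Ψ (put s 0 σ) else 0

/-- The von Neumann entropy `-Tr (ρ log ρ)` of a Hermitian matrix `ρ` (natural logarithm), the sum of
`-p log p` over its eigenvalues `p`. -/
def vnE {S : Type} [Fintype S] [DecidableEq S] (ρ : Matrix S S ℂ) : ℝ :=
  if h : ρ.IsHermitian then ∑ i, Real.negMulLog (h.eigenvalues i) else 0

/-- The Hamiltonian `H_L = ∑_v τ_v(h)` of an interaction `h` on `q × q` boxes. -/
def ham {d q : ℕ} (h : BConf d q → BConf d q → ℂ) (L : ℕ) [NeZero L] (Ψ : Conf d L → ℂ) :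
    Conf d L → ℂ :=
  fun s => ∑ v : Site L, ∑ τ : BConf d q, h (box q s v) τ * Ψ (put s v τ)

/-- `Ψ` is a normalised ground state of `H_L`, unique up to a phase, and the spectral gap above
it is at least `Δ`. -/
def IsGapped {d q : ℕ} (h : BConf d q → BConf d q → ℂ) (L : ℕ) [NeZero L] (Δ : ℝ)
    (Ψ : Conf d L → ℂ) : Prop :=
  nrm Ψ = 1 ∧ ∃ E : ℝ, (∀ s, ham h L Ψ s = E * Ψ s) ∧
    ∀ φ : Conf d L → ℂ, (∑ s, conj (Ψ s) * φ s = 0) →
      (E + Δ) * nrm φ ≤ (∑ s, conj (φ s) * ham h L φ s).re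

/-- The reduced density matrices on `R` of the family `Ψ` form a Cauchy sequence. -/
def Conv {d : ℕ} (R : Finset (ℤ × ℤ)) (Ψ : ∀ L : ℕ, Conf d L → ℂ) : Prop :=
  ∀ δ : ℝ, 0 < δ → ∃ L₂ : ℕ, ∀ (L L' : ℕ) [NeZero L] [NeZero L'], L₂ ≤ L → L₂ ≤ L' →
    Close R (Ψ L) (Ψ L') δ

theorem result (d : ℕ) (hd : 2 ≤ d) (R : Finset (ℤ × ℤ)) :
    -- (1) every translation invariant vector, in terms of the entropy of one block
    (∃ C : ℝ, 0 < C ∧ ∀ ε : ℝ, 0 < ε → ε ≤ 1 → ∀ b : ℕ, 1 ≤ b →
      ∀ (L : ℕ) [NeZero L], C * b / ε ≤ L →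
      ∀ Ψ : Conf d L → ℂ, nrm Ψ = 1 → TransInv Ψ →
      ∃ (D : ℕ) (A : Tensor d D),
        (D : ℝ) ≤ Real.exp (C * ((b : ℝ) ^ 2 + (1 + vnE (rdm Ψ b) / ((b : ℝ) ^ 2 * ε)) *
          Real.log (2 * b / ε))) ∧
        ∀ (L' : ℕ) [NeZero L'], C * (b / ε) ^ 4 ≤ L' →
          nrm (peps A L') ≠ 0 ∧ Close R Ψ (peps A L') ε) ∧
    -- (2) ground states of gapped families with block entropies at most `a b ^ α`
    (∀ a α : ℝ, 0 ≤ a → 0 ≤ α → α ≤ 2 → ∃ C : ℝ, 0 < C ∧
      ∀ (q : ℕ) (h : BConf d q → BConf d q → ℂ) (Δ : ℝ), 0 < Δ →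
      ∀ Ψ : ∀ L : ℕ, Conf d L → ℂ,
      (∃ L₁ : ℕ, ∀ (L : ℕ) [NeZero L], L₁ ≤ L → IsGapped h L Δ (Ψ L)) → Conv R Ψ →
      (∀ b : ℕ, 1 ≤ b → ∃ L₂ : ℕ, ∀ (L : ℕ) [NeZero L], L₂ ≤ L →
        vnE (rdm (Ψ L) b) ≤ a * (b : ℝ) ^ α) →
      ∀ ε : ℝ, 0 < ε → ε ≤ 1 → ∃ (D : ℕ) (A : Tensor d D),
        (D : ℝ) ≤ Real.exp (C * ε ^ (-(2 / (4 - α))) * Real.log (2 / ε)) ∧
        ∃ L₃ : ℕ, ∀ (L : ℕ) [NeZero L], L₃ ≤ L →
          nrm (peps A L) ≠ 0 ∧ Close R (Ψ L) (peps A L) ε) := by
  have key : ∀ (L : ℕ) [NeZero L] (Ψ : Conf d L → ℂ) (b : ℕ),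
      Pool.Agent.N658.TP.rdm Ψ b = rdm Ψ b := by
    intro L _ Ψ b
    ext σ τ
    simp only [Pool.Agent.N658.TP.rdm, rdm, Matrix.of_apply, Pool.Agent.Y738.PE.expec]
    refine Finset.sum_congr rfl fun s _ => ?_
    have hb : Pool.Agent.Y738.PE.box b s 0 = box b s 0 := rfl
    rw [hb]
    rw [Finset.sum_eq_single σ]
    · by_cases h : box b s 0 = τ
      · simp only [h, and_self, if_true, mul_one]
        rfl
      · simp only [h, false_and, if_false, mul_zero, zero_mul]
    · intro τ' _ hτ'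
      simp only [hτ', and_false, if_false, mul_zero, zero_mul]
    · intro h
      exact absurd (Finset.mem_univ _) h
  have key2 : ∀ (L : ℕ) [NeZero L] (Ψ : Conf d L → ℂ) (b : ℕ),
      Pool.Agent.N658.TP.vnE (Pool.Agent.N658.TP.rdm Ψ b) = vnE (rdm Ψ b) := by
    intro L _ Ψ b
    rw [key L Ψ b]
    rfl
  refine ⟨?_, ?_⟩
  · obtain ⟨C, hC, h1⟩ := Pool.Agent.N658.TP.ent1' d hd R
    refine ⟨C, hC, fun ε hε hε1 b hb L _ hL Ψ hΨ hTI => ?_⟩
    obtain ⟨D, A, hD, hA⟩ := h1 ε hε hε1 b hb L hL Ψ hΨ hTI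
    rw [key2 L Ψ b] at hD
    exact ⟨D, A, hD, hA⟩
  · intro a α ha hα hα2
    obtain ⟨C, hC, h2⟩ := Pool.Agent.N658.TP.ent2' d hd R a α ha hα hα2
    refine ⟨C, hC, fun q h Δ hΔ Ψ hgap hconv hS ε hε hε1 => ?_⟩
    obtain ⟨L₁, hgap⟩ := hgap
    refine h2 Ψ ⟨L₁, fun L _ hL => ⟨(hgap L hL).1,
      Pool.Agent.Y738.PE.gapped_transInv h hΔ (Ψ L) (hgap L hL)⟩⟩ hconv ?_ ε hε hε1
    intro b hb
    obtain ⟨L₂, hL₂⟩ := hS b hb
    refine ⟨L₂, fun L _ hL => ?_⟩
    rw [key2 L (Ψ L) b]
    exact hL₂ L hL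

end Pool.Agent.Results.MP_0f69bf_mp.EntropyPEPS
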