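import Pool.Agent.N658.FF.Asm2
import Pool.Agent.N342.FF.GlobLoc

/-!
# Polynomial local PEPS approximation for frustration-free Hamiltonians

Let `h ≥ 0` be an interaction on the `R × R` box (no commutativity is assumed), `H_L` the sum of its
translates on the `L × L` torus, and let the unit vectors `Ψ L` satisfy `H_L Ψ_L = 0`
(frustration-freeness) for all large `L`. Suppose that

* (gap) for some `b` and `Δ > 0` and all large `L`: the terms in every union of boxes of side `b`
  have spectral gap at least `Δ` above their common kernel;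

* (holes) one of the following two conditions holds for all large `L`.
  (a) The common kernel of the terms which do not meet `n` boxes of side `w` has dimension at most
  `exp (A n w ^ a)`, for all `n` (with `n = 0` this is uniqueness) and all `w₀ ≤ w ≤ L`.
  (b) `Ψ_L` is the only ground state on the torus, and holes can be filled: if `ψ ≠ 0` is annihilated
  by all terms off `n + 1` boxes of side `w`, then some operator on the box of side `w + 2 w ^ κ`
  around the last one maps `ψ` to a vector which is not orthogonal to the vectors annihilated by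
  all the terms off the first `n` boxes.

Then `H_L` has a unique ground state and gap at least `Δ`, and Q2 (hence Q1) has a positive answer
for every finite region on which the reduced density matrices of `Ψ_L` converge at a polynomial
rate: there is a polynomial such that for every `0 < ε ≤ 1` ONE translation invariant tensor of bond
dimension at most `poly (1 / ε)` has nonzero PEPS vectors and approximates the reduced density
matrices of `Ψ_L` on the region up to `ε` in trace norm, for all `L ≥ poly (1 / ε)`.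

(The convergence of the reduced density matrices follows for instance from local topological order:
the ground states of a large box all look alike in its centre.)

Proof. By the theorem of Pool/Agent/Results/MP_953b23_mp/FrustrationFree.lean the Hamiltonian `H_L` has
at most `L ^ (C (m + 1))` eigenvalues up to `m` (detectability lemma, locality of the energy transfer
by the ground state projections, a potential function along a tree of projections on two scales
`log L` and `log log L`), so `Ψ_m` is within `1 / m` of a PEPS with polynomial bond dimension, for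
`m = poly (1 / ε)`. Translation invariance and uniformity in the size come from GlobalToLocal.
-/

set_option autoImplicit false

open scoped BigOperators ComplexConjugate Matrix ComplexOrder

noncomputable section

namespace Pool.Agent.Results.MP_0f69bf_mp.FrustrationFree

open Pool.Agent.TH235.PP (BoxOp term ham ip normSq sh)
open Pool.Agent.Results.MP_953b23_mp.OverlapBoosting (GappedFamily)

/-- Sites of the `L × L` torus. -/
abbrev Site (L : ℕ) := ZMod L × ZMod L

/-- Configurations (basis states) of the torus with local dimension `d`; vectors are functions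
`Conf d L → ℂ`. -/
abbrev Conf (d L : ℕ) := Site L → Fin d

section approx

open Classical

/-- Squared norm of a vector. -/
def nrm {S : Type} [Fintype S] (f : S → ℂ) : ℝ := ∑ s, ‖f s‖ ^ 2

/-- The matrix `B` has operator norm at most `1`. -/
def Contr {S : Type} [Fintype S] (B : S → S → ℂ) : Prop :=
  ∀ f : S → ℂ, nrm (fun σ => ∑ τ, B σ τ * f τ) ≤ nrm f

/-- The restriction of `s` to the translate by `v` of the region `R ⊂ ℤ²`. -/
def res {d L : ℕ} (R : Finset (ℤ × ℤ)) (s : Conf d L) (v : Site L) : R → Fin d :=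
  fun p => s (v.1 + ((p : ℤ × ℤ).1 : ZMod L), v.2 + ((p : ℤ × ℤ).2 : ZMod L))

/-- `⟨Ψ, B_v Ψ⟩`, the matrix `B` acting on the translate by `v` of the region `R`: the sum of
`conj (Ψ s) * B (s on v + R) (s' on v + R) * Ψ s'` over all pairs `s`, `s'` which agree off
`v + R`. -/
def expecR {d L : ℕ} [NeZero L] (R : Finset (ℤ × ℤ)) (Ψ : Conf d L → ℂ) (v : Site L)
    (B : (R → Fin d) → (R → Fin d) → ℂ) : ℂ :=
  ∑ s : Conf d L, ∑ s' : Conf d L,
    if (∀ w : Site L, (∀ p ∈ R, w ≠ (v.1 + (p.1 : ZMod L), v.2 + (p.2 : ZMod L))) → s w = s' w)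
    then conj (Ψ s) * B (res R s v) (res R s' v) * Ψ s' else 0

/-- The reduced density matrices on `R` of the normalised vectors `Ψ`, `Ψ'` (on two possibly
different tori, at any positions) have trace distance at most `ε`: the expectations of all
matrices of norm at most `1` differ by at most `ε`. -/
def Close {d L L' : ℕ} [NeZero L] [NeZero L'] (R : Finset (ℤ × ℤ)) (Ψ : Conf d L → ℂ)
    (Ψ' : Conf d L' → ℂ) (ε : ℝ) : Prop :=
  ∀ (u : Site L) (v : Site L') (B : (R → Fin d) → (R → Fin d) → ℂ), Contr B →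
    ‖expecR R Ψ u B / (nrm Ψ : ℂ) - expecR R Ψ' v B / (nrm Ψ' : ℂ)‖ ≤ ε

/-- A PEPS tensor with physical dimension `d` and bond dimension `D`; indices: physical, left,
right, down, up. -/
abbrev Tensor (d D : ℕ) := Fin d → Fin D → Fin D → Fin D → Fin D → ℂ

/-- The translation invariant PEPS vector of the tensor `A` on the `L × L` torus. -/
def peps {d D : ℕ} (A : Tensor d D) (L : ℕ) [NeZero L] : Conf d L → ℂ :=
  fun s => ∑ hor : Site L → Fin D, ∑ ver : Site L → Fin D,
    ∏ v : Site L, A (s v) (hor (v.1 - 1, v.2)) (hor v) (ver (v.1, v.2 - 1)) (ver v)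

/-- The reduced density matrices on `R` of the family `Ψ` converge at a polynomial rate (in trace
norm, at all positions). -/
def PolyConv {d : ℕ} (R : Finset (ℤ × ℤ)) (Ψ : ∀ L : ℕ, Conf d L → ℂ) : Prop :=
  ∃ c k : ℕ, ∀ ε : ℝ, 0 < ε → ε ≤ 1 → ∀ (L L' : ℕ) [NeZero L] [NeZero L'],
    (c : ℝ) * (1 / ε) ^ k ≤ L → (c : ℝ) * (1 / ε) ^ k ≤ L' → Close R (Ψ L) (Ψ L') ε

/-- Polynomially efficient local approximation by translation invariant PEPS, for each `ε` with one
tensor for all sizes `L ≥ c (1/ε)^k`. -/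
def EffAll {d : ℕ} (R : Finset (ℤ × ℤ)) (Ψ : ∀ L : ℕ, Conf d L → ℂ) : Prop :=
  ∃ c k : ℕ, ∀ ε : ℝ, 0 < ε → ε ≤ 1 → ∃ (D : ℕ) (A : Tensor d D),
    (D : ℝ) ≤ c * (1 / ε) ^ k ∧
    ∀ (L : ℕ) [NeZero L], (c : ℝ) * (1 / ε) ^ k ≤ L →
      nrm (peps A L) ≠ 0 ∧ Close R (Ψ L) (peps A L) ε

/-- The union of the boxes of side `b` with corners in `A`. -/
def boxes {L : ℕ} (b : ℕ) (A : Finset (Site L)) : Finset (Site L) :=
  A.biUnion fun y => Finset.univ.image fun z : Fin b × Fin b => sh y z

end approx

/-- For every set `A` of sites the terms `term h u` with `u` in the union of the boxes of side `b`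
with corners in `A` have gap at least `Δ` above their common kernel: if `φ` is orthogonal to the
common kernel then the sum of the expectations of these terms in `φ` is at least `Δ ‖φ‖²`. -/
def ThickGap {d R : ℕ} (h : BoxOp d R) (L : ℕ) [NeZero L] (b : ℕ) (Δ : ℝ) : Prop :=
  ∀ (A : Finset (Site L)) (φ : (Site L → Fin d) → ℂ),
    (∀ ψ : (Site L → Fin d) → ℂ, (∀ u ∈ boxes b A, term h u *ᵥ ψ = 0) → ip ψ φ = 0) →
    Δ * normSq φ ≤ ∑ u ∈ boxes b A, (ip φ (term h u *ᵥ φ)).re

/-- The ground space of the punctured torus: the vectors annihilated by all the terms which act on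
sites outside the boxes of side `w` with corners in `C`. -/
def punctured {d R : ℕ} (h : BoxOp d R) (L : ℕ) [NeZero L] (w : ℕ) (C : Finset (Site L)) :
    Submodule ℂ ((Site L → Fin d) → ℂ) where
  carrier := {ψ | ∀ u : Site L,
    (∀ (x : Fin R × Fin R), ∀ c ∈ C, ∀ y : Fin w × Fin w, sh u x ≠ sh c y) → term h u *ᵥ ψ = 0}
  add_mem' := by
    intro a b ha hb u hu
    rw [Matrix.mulVec_add, ha u hu, hb u hu, add_zero]
  zero_mem' := by
    intro u _
    rw [Matrix.mulVec_zero]
  smul_mem' := by
    intro c a ha u hu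
    rw [Matrix.mulVec_smul, ha u hu, smul_zero]

/-- The ground space of the torus with `n` holes of side `w` has dimension at most
`exp (A n w ^ a)`. -/
def FewPunctured {d R : ℕ} (h : BoxOp d R) : Prop :=
  ∃ (A : ℝ) (a w₀ L₀ : ℕ), ∀ (L : ℕ) [NeZero L], L₀ ≤ L → ∀ (w : ℕ) (C : Finset (Site L)),
    w₀ ≤ w → w ≤ L →
      (Module.finrank ℂ (punctured h L w C) : ℝ) ≤ Real.exp (A * C.card * (w : ℝ) ^ a)

/-- Uniqueness of the ground state on the torus, and filling of holes: a nonzero ground state `ψ` of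
the torus with holes `C` and one more hole is mapped by an operator `O` on the box of side
`w + 2 w ^ κ` around this hole to a vector not orthogonal to the ground states `φ` of the torus with
holes `C`. -/
def Fillable {d R : ℕ} (h : BoxOp d R) (Ψ : ∀ L : ℕ, (Site L → Fin d) → ℂ) : Prop :=
  ∃ κ w₀ L₀ : ℕ, ∀ (L : ℕ) [NeZero L], L₀ ≤ L →
    (∀ φ : (Site L → Fin d) → ℂ, ham h L *ᵥ φ = 0 → ∃ c : ℂ, φ = c • Ψ L) ∧
    ∀ w : ℕ, w₀ ≤ w → w + 2 * w ^ κ ≤ L → ∀ (C : Finset (Site L)) (v : Site L),
      ∀ ψ ∈ punctured h L w (insert (v.1 + ((w ^ κ : ℕ) : ZMod L), v.2 + ((w ^ κ : ℕ) : ZMod L)) C),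
        ψ ≠ 0 → ∃ (O : BoxOp d (w + 2 * w ^ κ)) (φ : (Site L → Fin d) → ℂ),
          φ ∈ punctured h L w C ∧ ip φ (term O v *ᵥ ψ) ≠ 0

theorem result (d R b : ℕ) (hd : 2 ≤ d) (hR : 1 ≤ R) (hb : 1 ≤ b) (h : BoxOp d R)
    (hh : h.PosSemidef) (Δ : ℝ) (hΔ : 0 < Δ) (Ψ : ∀ L : ℕ, (Site L → Fin d) → ℂ)
    (hΨ : ∃ L₀ : ℕ, ∀ (L : ℕ) [NeZero L], L₀ ≤ L →
      normSq (Ψ L) = 1 ∧ ham h L *ᵥ Ψ L = 0 ∧ ThickGap h L b Δ)
    (hP : FewPunctured h ∨ Fillable h Ψ) :
    GappedFamily h Δ Ψ ∧
      ∀ Rg : Finset (ℤ × ℤ), PolyConv Rg Ψ → EffAll Rg Ψ := by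
  obtain ⟨h1, -, h3⟩ := Pool.Agent.N658.FF.final (by omega) hR hb h hh hΔ Ψ hΨ hP
  refine ⟨h1, Pool.Agent.N342.FF.globLoc d hd Ψ ?_ ?_⟩
  · obtain ⟨L₀, hL₀⟩ := hΨ
    exact ⟨L₀, fun L _ hL => (hL₀ L hL).1⟩
  · obtain ⟨C, L₀, hC⟩ := h3 1 one_pos
    refine ⟨C, max L₀ 1, fun L _ hL => ?_⟩
    obtain ⟨D, ψ, hD, hψ, herr⟩ := hC L ((le_max_left _ _).trans hL)
    refine ⟨D, ψ, ?_, hψ, herr⟩
    have hL1 : (0 : ℝ) < L := by exact_mod_cast (le_max_right _ _).trans hL
    have h5 : Real.exp ((C : ℝ) * Real.log L ^ 1) = (L : ℝ) ^ C := by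
      rw [pow_one, Real.exp_nat_mul, Real.exp_log hL1]
    rw [h5]
    exact_mod_cast hD

end Pool.Agent.Results.MP_0f69bf_mp.FrustrationFree
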