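import Pool.Agent.N658.TP.In

/-!
# Local PEPS approximation with bond dimension `exp (C / ε)`

Let `d ≥ 2` and let `R ⊂ ℤ²` be a finite region. There is a constant `C` depending only on `d` and `R`
such that:

(1) for every `0 < ε ≤ 1` and EVERY translation invariant unit vector `Ψ` on a torus of side
`L ≥ C / ε` ONE translation invariant tensor of bond dimension at most `exp (C / ε)` has nonzero PEPS
vectors on all tori of side `L' ≥ C / ε⁴` and reproduces there the reduced density matrix of `Ψ` on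
`R` up to `ε` in trace norm (the bound known so far is `exp (C / ε²)`, the dimension of a block of
side `1 / ε`);

(2) hence for every translation invariant finite-range Hamiltonian with unique gapped ground states
whose reduced density matrices on `R` converge, the conclusion of Q1 holds with
`g(ε, R) = exp (C / ε)`, the constant `C` being independent of the Hamiltonian, of its range and of
the gap.

(3) For every Hermitian interaction `h` on a `q × q` box there is `C` such that for every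
`0 < η ≤ 1` some translation invariant PEPS of bond dimension at most `exp (C / η)` has energy per
site within `η` of the ground energy per site on all large tori. No assumption is made on gaps,
uniqueness or convergence in (1) and (3).

Proof. A mixed state with almost the right marginals is found by duality: the compact convex hull of
the marginals of suitable states is not separated from the marginal `ρ` of `Ψ` by any observable `B`,
because the thermal state of the Hamiltonian `∑ τ_v(B)` at inverse temperature `1 / ε` on a torus of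
side `m ~ 1 / ε`, normalised, has energy per site within `O(ε)` of the minimum (entropy is at most
`m² log d`) and it is the reduction of a PEPS with bond dimension `exp (O(1 / ε + log m))` (cluster
expansion of the imaginary time evolution with error measured in relative Frobenius norm). So the
whole block of side `m` need not be stored as in the previous construction; only thermal states of
side `m` and inverse temperature `1 / ε` are used. Mixtures of boundedly many such states are placed on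
a lattice of composite blocks, averaged over translations and purified into one translation invariant
tensor.
-/

set_option autoImplicit false

open scoped BigOperators ComplexConjugate Classical

noncomputable section

namespace Pool.Agent.Results.MP_0f69bf_mp.ThermalPEPS

/-- Sites of the `L × L` torus. -/
abbrev Site (L : ℕ) := ZMod L × ZMod L

/-- Configurations (basis states) of the torus with local dimension `d`; vectors are functions
`Conf d L → ℂ`. -/
abbrev Conf (d L : ℕ) := Site L → Fin d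

/-- Configurations of a `q × q` box. -/
abbrev BConf (d q : ℕ) := Fin q × Fin q → Fin d

/-- Squared norm of a vector. -/
def nrm {S : Type} [Fintype S] (f : S → ℂ) : ℝ := ∑ s, ‖f s‖ ^ 2

/-- The matrix `B` has operator norm at most `1`. -/
def Contr {S : Type} [Fintype S] (B : S → S → ℂ) : Prop :=
  ∀ f : S → ℂ, nrm (fun σ => ∑ τ, B σ τ * f τ) ≤ nrm f

/-- The restriction of `s` to the `q × q` box with corner `v`. -/
def box {d L : ℕ} (q : ℕ) (s : Conf d L) (v : Site L) : BConf d q :=
  fun p => s (v.1 + ((p.1 : ℕ) : ZMod L), v.2 + ((p.2 : ℕ) : ZMod L))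

/-- The configuration `s` with its content on the `q × q` box with corner `v` replaced by `τ`. -/
def put {d L q : ℕ} (s : Conf d L) (v : Site L) (τ : BConf d q) : Conf d L :=
  fun w => if h : (w.1 - v.1).val < q ∧ (w.2 - v.2).val < q then
    τ (⟨(w.1 - v.1).val, h.1⟩, ⟨(w.2 - v.2).val, h.2⟩) else s w

/-- The restriction of `s` to the translate by `v` of the region `R ⊂ ℤ²`. -/
def res {d L : ℕ} (R : Finset (ℤ × ℤ)) (s : Conf d L) (v : Site L) : R → Fin d :=
  fun p => s (v.1 + ((p : ℤ × ℤ).1 : ZMod L), v.2 + ((p : ℤ × ℤ).2 : ZMod L))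

/-- `⟨Ψ, B_v Ψ⟩`, the matrix `B` acting on the translate by `v` of the region `R`: the sum of
`conj (Ψ s) * B (s on v + R) (s' on v + R) * Ψ s'` over all pairs `s`, `s'` which agree off
`v + R`. -/
def expecR {d L : ℕ} [NeZero L] (R : Finset (ℤ × ℤ)) (Ψ : Conf d L → ℂ) (v : Site L)
    (B : (R → Fin d) → (R → Fin d) → ℂ) : ℂ :=
  ∑ s : Conf d L, ∑ s' : Conf d L,
    if (∀ w : Site L, (∀ p ∈ R, w ≠ (v.1 + (p.1 : ZMod L), v.2 + (p.2 : ZMod L))) → s w = s' w)
    then conj (Ψ s) * B (res R s v) (res R s' v) * Ψ s' else 0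

/-- The reduced density matrices on `R` of the normalised vectors `Ψ`, `Ψ'` (on two possibly
different tori, at any positions) have trace distance at most `ε`: the expectations of all
matrices of norm at most `1` differ by at most `ε`. -/
def Close {d L L' : ℕ} [NeZero L] [NeZero L'] (R : Finset (ℤ × ℤ)) (Ψ : Conf d L → ℂ)
    (Ψ' : Conf d L' → ℂ) (ε : ℝ) : Prop :=
  ∀ (u : Site L) (v : Site L') (B : (R → Fin d) → (R → Fin d) → ℂ), Contr B →
    ‖expecR R Ψ u B / (nrm Ψ : ℂ) - expecR R Ψ' v B / (nrm Ψ' : ℂ)‖ ≤ ε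

/-- A PEPS tensor with physical dimension `d` and bond dimension `D`; indices: physical, left,
right, down, up. -/
abbrev Tensor (d D : ℕ) := Fin d → Fin D → Fin D → Fin D → Fin D → ℂ

/-- The translation invariant PEPS vector of the tensor `A` on the `L × L` torus. -/
def peps {d D : ℕ} (A : Tensor d D) (L : ℕ) [NeZero L] : Conf d L → ℂ :=
  fun s => ∑ hor : Site L → Fin D, ∑ ver : Site L → Fin D,
    ∏ v : Site L, A (s v) (hor (v.1 - 1, v.2)) (hor v) (ver (v.1, v.2 - 1)) (ver v)

/-- The vector `Ψ` is translation invariant up to scalars. -/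
def TransInv {d L : ℕ} (Ψ : Conf d L → ℂ) : Prop :=
  ∀ a : Site L, ∃ c : ℂ, ∀ s : Conf d L, Ψ (fun w => s (w + a)) = c * Ψ s

/-- The Hamiltonian `H_L = ∑_v τ_v(h)` of an interaction `h` on `q × q` boxes. -/
def ham {d q : ℕ} (h : BConf d q → BConf d q → ℂ) (L : ℕ) [NeZero L] (Ψ : Conf d L → ℂ) :
    Conf d L → ℂ :=
  fun s => ∑ v : Site L, ∑ τ : BConf d q, h (box q s v) τ * Ψ (put s v τ)

/-- The energy `⟨φ, H_L φ⟩`. -/
def en {d q : ℕ} (h : BConf d q → BConf d q → ℂ) (L : ℕ) [NeZero L] (φ : Conf d L → ℂ) : ℝ :=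
  (∑ s, conj (φ s) * ham h L φ s).re

/-- `Ψ` is a normalised ground state of `H_L`, unique up to a phase, and the spectral gap above
it is at least `Δ`. -/
def IsGapped {d q : ℕ} (h : BConf d q → BConf d q → ℂ) (L : ℕ) [NeZero L] (Δ : ℝ)
    (Ψ : Conf d L → ℂ) : Prop :=
  nrm Ψ = 1 ∧ ∃ E : ℝ, (∀ s, ham h L Ψ s = E * Ψ s) ∧
    ∀ φ : Conf d L → ℂ, (∑ s, conj (Ψ s) * φ s = 0) →
      (E + Δ) * nrm φ ≤ (∑ s, conj (φ s) * ham h L φ s).re

/-- The reduced density matrices on `R` of the family `Ψ` form a Cauchy sequence. -/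
def Conv {d : ℕ} (R : Finset (ℤ × ℤ)) (Ψ : ∀ L : ℕ, Conf d L → ℂ) : Prop :=
  ∀ δ : ℝ, 0 < δ → ∃ L₂ : ℕ, ∀ (L L' : ℕ) [NeZero L] [NeZero L'], L₂ ≤ L → L₂ ≤ L' →
    Close R (Ψ L) (Ψ L') δ

theorem result (d : ℕ) (hd : 2 ≤ d) :
    (∀ R : Finset (ℤ × ℤ), ∃ C : ℝ, 0 < C ∧
      -- (1) every translation invariant vector
      (∀ ε : ℝ, 0 < ε → ε ≤ 1 → ∀ (L : ℕ) [NeZero L], C / ε ≤ L →
        ∀ Ψ : Conf d L → ℂ, nrm Ψ = 1 → TransInv Ψ →
        ∃ (D : ℕ) (A : Tensor d D), (D : ℝ) ≤ Real.exp (C / ε) ∧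
          ∀ (L' : ℕ) [NeZero L'], C / ε ^ 4 ≤ L' →
            nrm (peps A L') ≠ 0 ∧ Close R Ψ (peps A L') ε) ∧
      -- (2) ground states of gapped families
      (∀ (q : ℕ) (h : BConf d q → BConf d q → ℂ) (Δ : ℝ), 0 < Δ →
        ∀ Ψ : ∀ L : ℕ, Conf d L → ℂ,
        (∃ L₁ : ℕ, ∀ (L : ℕ) [NeZero L], L₁ ≤ L → IsGapped h L Δ (Ψ L)) → Conv R Ψ →
        ∀ ε : ℝ, 0 < ε → ε ≤ 1 → ∃ (D : ℕ) (A : Tensor d D), (D : ℝ) ≤ Real.exp (C / ε) ∧
          ∃ L₃ : ℕ, ∀ (L : ℕ) [NeZero L], L₃ ≤ L →
            nrm (peps A L) ≠ 0 ∧ Close R (Ψ L) (peps A L) ε)) ∧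
    -- (3) ground energies
    (∀ (q : ℕ), 0 < q → ∀ h : BConf d q → BConf d q → ℂ, (∀ σ τ, h σ τ = conj (h τ σ)) →
      ∃ C : ℝ, 0 < C ∧ ∀ η : ℝ, 0 < η → η ≤ 1 → ∃ (D : ℕ) (A : Tensor d D),
        (D : ℝ) ≤ Real.exp (C / η) ∧ ∃ L₁ : ℕ, ∀ (L : ℕ) [NeZero L], L₁ ≤ L →
          nrm (peps A L) ≠ 0 ∧ ∀ φ : Conf d L → ℂ, nrm φ = 1 →
            en h L (peps A L) ≤ (en h L φ + η * (L : ℝ) ^ 2) * nrm (peps A L)) := by
  refine ⟨fun R => ?_, fun q hq h hh =>
    Pool.Agent.N658.TP.A2.enA Pool.Agent.N658.TP.therm' Pool.Agent.N658.TP.pipe' d q hd hq h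
      fun σ τ => hh τ σ⟩
  obtain ⟨C₁, hC₁, h1⟩ := Pool.Agent.N658.TP.A2.asmA Pool.Agent.N658.TP.therm'
    Pool.Agent.N658.TP.pipe' d hd R
  obtain ⟨C₂, hC₂, h2⟩ := Pool.Agent.N658.TP.A2.famA Pool.Agent.N658.TP.therm'
    Pool.Agent.N658.TP.pipe' d hd R
  refine ⟨max C₁ C₂, lt_max_of_lt_left hC₁, ?_, ?_⟩
  · intro ε hε hε1 L _ hL Ψ hΨ hTI
    obtain ⟨D, A, hD, hA⟩ := h1 ε hε hε1 L
      ((div_le_div_of_nonneg_right (le_max_left _ _) hε.le).trans hL) Ψ hΨ hTI
    refine ⟨D, A, hD.trans (Real.exp_le_exp.2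
      (div_le_div_of_nonneg_right (le_max_left _ _) hε.le)), fun L' _ hL' => hA L'
      ((div_le_div_of_nonneg_right (le_max_left _ _) (by positivity)).trans hL')⟩
  · intro q h Δ hΔ Ψ hgap hconv ε hε hε1
    obtain ⟨L₁, hgap⟩ := hgap
    obtain ⟨D, A, hD, hA⟩ := h2 Ψ ⟨L₁, fun L _ hL => ⟨(hgap L hL).1,
      Pool.Agent.Y738.PE.gapped_transInv h hΔ (Ψ L) (hgap L hL)⟩⟩ hconv ε hε hε1
    exact ⟨D, A, hD.trans (Real.exp_le_exp.2
      (div_le_div_of_nonneg_right (le_max_right _ _) hε.le)), hA⟩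

end Pool.Agent.Results.MP_0f69bf_mp.ThermalPEPS
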